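import Pool.Agent.Q107.Broadcast.Basic

/-!
# A graph with `mp = 2`, fractional broadcast number `3` and broadcast domination number `4`

The graph is the prism over the third power of the cycle of length 15.
-/

set_option autoImplicit false

namespace Pool.Agent.Results.MP_93535d_co.IntegralGap

open SimpleGraph Finset

/-- The eccentricity of a vertex of a finite connected graph. -/
noncomputable def ecc {V : Type} [Fintype V] (G : SimpleGraph V) (v : V) : ℕ :=
  univ.sup fun u => G.dist u v

/-- `f` is a dominating broadcast. -/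
def IsDomBroadcast {V : Type} [Fintype V] (G : SimpleGraph V) (f : V → ℕ) : Prop :=
  (∀ v, f v ≤ ecc G v) ∧ ∀ u, ∃ v, 1 ≤ f v ∧ G.dist u v ≤ f v

/-- The broadcast domination number `γ_b(G)`. -/
noncomputable def broadcastNum {V : Type} [Fintype V] (G : SimpleGraph V) : ℕ :=
  sInf {c | ∃ f : V → ℕ, IsDomBroadcast G f ∧ ∑ v, f v = c}

/-- `M` is a multipacking. -/
def IsMultipacking {V : Type} (G : SimpleGraph V) (M : Finset V) : Prop :=
  ∀ v, ∀ k, 1 ≤ k → (M.filter fun u => G.dist u v ≤ k).card ≤ k

/-- The multipacking number `mp(G)`. -/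
noncomputable def multipackingNum {V : Type} [Fintype V] (G : SimpleGraph V) : ℕ :=
  sSup {c | ∃ M : Finset V, IsMultipacking G M ∧ M.card = c}

/-- `x` is feasible for the linear program: `x` is nonnegative and every vertex `u` is covered by
total weight at least one of the pairs `(v, k)` with `1 ≤ k ≤ e(v)` and `d(u, v) ≤ k`. -/
def IsFeasible {V : Type} [Fintype V] (G : SimpleGraph V) (x : V → ℕ → ℝ) : Prop :=
  (∀ v k, 0 ≤ x v k) ∧
    ∀ u, 1 ≤ ∑ v, ∑ k ∈ Finset.Icc 1 (ecc G v), if G.dist u v ≤ k then x v k else 0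

/-- The fractional broadcast number `γ_{b,f}(G)`: the optimum of the linear program. -/
noncomputable def fracBroadcastNum {V : Type} [Fintype V] (G : SimpleGraph V) : ℝ :=
  sInf {c | ∃ x : V → ℕ → ℝ, IsFeasible G x ∧
    ∑ v, ∑ k ∈ Finset.Icc 1 (ecc G v), (k : ℝ) * x v k = c}

/-! ### The example -/

/-- the distance table of the prism over the third power of the 15-cycle; the vertex `u` stands for
the pair of its residue modulo 15 and its layer `u / 15` -/
def D (u v : Fin 30) : ℕ :=
  (min ((u.val % 15 + 15 - v.val % 15) % 15) ((v.val % 15 + 15 - u.val % 15) % 15) + 2) / 3 +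
    (if u.val / 15 = v.val / 15 then 0 else 1)

/-- the graph -/
def g : SimpleGraph (Fin 30) where
  Adj u v := D u v = 1
  symm := ⟨by decide +kernel⟩
  loopless := ⟨by decide +kernel⟩

lemma g_table (u v : Fin 30) : g.Reachable u v ∧ g.dist u v = D u v := by
  apply Q107.Broadcast.table
  · decide +kernel
  · have h : ∀ v w : Fin 30, D v w = 1 → ∀ u, D u w ≤ D u v + 1 := by decide +kernel
    exact fun u v w hadj => h v w hadj u
  · have h : ∀ u v : Fin 30, u ≠ v → ∃ w, D w v = 1 ∧ D u w + 1 = D u v := by decide +kernel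
    exact h

lemma g_dist (u v : Fin 30) : g.dist u v = D u v := (g_table u v).2

lemma g_connected : g.Connected := by
  rw [connected_iff]
  exact ⟨fun u v => (g_table u v).1, ⟨0⟩⟩

lemma g_ecc (v : Fin 30) : ecc g v = 4 := by
  have h1 : ∀ v : Fin 30, ∀ u, D u v ≤ 4 := by decide +kernel
  have h2 : ∀ v : Fin 30, ∃ u, D u v = 4 := by decide +kernel
  apply le_antisymm
  · exact Finset.sup_le fun u _ => by rw [g_dist]; exact h1 v u
  · obtain ⟨u, hu⟩ := h2 v
    rw [← hu, ← g_dist]
    exact Finset.le_sup (f := fun u => g.dist u v) (Finset.mem_univ u)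

/-- sizes of the balls -/
lemma ball_card : ∀ v : Fin 30, (univ.filter fun u => D u v ≤ 1).card = 8 ∧
    (univ.filter fun u => D u v ≤ 2).card = 20 ∧ (univ.filter fun u => D u v ≤ 3).card = 28 := by
  decide +kernel

lemma ball_card' : ∀ v : Fin 30, (univ.filter fun u => D v u ≤ 2).card = 20 := by
  decide +kernel

lemma ball_le (v : Fin 30) (k : ℕ) (hk : 1 ≤ k) :
    (univ.filter fun u => D u v ≤ k).card ≤ 10 * k := by
  obtain ⟨h1, h2, _⟩ := ball_card v
  rcases Nat.lt_or_ge k 3 with h | h
  · interval_cases k <;> omega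
  · have := Finset.card_le_univ (univ.filter fun u => D u v ≤ k)
    rw [Fintype.card_fin] at this
    omega

/-- every three vertices that are pairwise at distance at least three lie in a ball of radius two -/
lemma three : ∀ a b : Fin 30, D a b ≤ 2 ∨ ∀ c, D a c ≤ 2 ∨ D b c ≤ 2 ∨
    ∃ w, D a w ≤ 2 ∧ D b w ≤ 2 ∧ D c w ≤ 2 := by
  decide +kernel

lemma near : ∀ a b : Fin 30, a ≠ b → D a b ≤ 2 → ∃ w, D a w ≤ 1 ∧ D b w ≤ 1 := by
  decide +kernel

lemma mp_le (M : Finset (Fin 30)) (hM : IsMultipacking g M) : M.card ≤ 2 := by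
  by_contra hcon
  push Not at hcon
  obtain ⟨a, ha, b, hb, c, hc, hab, hac, hbc⟩ := Finset.two_lt_card.1 hcon
  have hpair : ∀ x ∈ M, ∀ y ∈ M, x ≠ y → 3 ≤ D x y := by
    intro x hx y hy hxy
    by_contra hlt
    obtain ⟨w, h1, h2⟩ := near x y hxy (by omega)
    have h3 := hM w 1 le_rfl
    have h4 : ({x, y} : Finset (Fin 30)) ⊆ M.filter fun u => g.dist u w ≤ 1 := by
      intro z hz
      rw [Finset.mem_insert, Finset.mem_singleton] at hz
      rw [Finset.mem_filter, g_dist]
      rcases hz with rfl | rfl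
      · exact ⟨hx, h1⟩
      · exact ⟨hy, h2⟩
    have h5 := Finset.card_le_card h4
    rw [Finset.card_pair hxy] at h5
    omega
  have h1 := hpair a ha b hb hab
  have h2 := hpair a ha c hc hac
  have h3 := hpair b hb c hc hbc
  rcases three a b with h | h
  · omega
  · rcases h c with h | h | ⟨w, h4, h5, h6⟩
    · omega
    · omega
    · have h7 := hM w 2 (by norm_num)
      have h8 : ({a, b, c} : Finset (Fin 30)) ⊆ M.filter fun u => g.dist u w ≤ 2 := by
        intro z hz
        rw [Finset.mem_insert, Finset.mem_insert, Finset.mem_singleton] at hz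
        rw [Finset.mem_filter, g_dist]
        rcases hz with rfl | rfl | rfl
        · exact ⟨ha, h4⟩
        · exact ⟨hb, h5⟩
        · exact ⟨hc, h6⟩
      have h9 := Finset.card_le_card h8
      rw [Finset.card_eq_three.2 ⟨a, b, c, hab, hac, hbc, rfl⟩] at h9
      omega

lemma mp_eq : multipackingNum g = 2 := by
  apply le_antisymm
  · apply csSup_le
    · exact ⟨0, ∅, fun v k _ => by simp, rfl⟩
    · rintro c ⟨M, hM, rfl⟩
      exact mp_le M hM
  · apply le_csSup
    · refine ⟨30, ?_⟩
      rintro c ⟨M, _, rfl⟩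
      have := Finset.card_le_univ M
      rwa [Fintype.card_fin] at this
    · refine ⟨{0, 7}, fun v k hk => ?_, by decide⟩
      have h : ∀ v : Fin 30, ¬ (D 0 v ≤ 1 ∧ D 7 v ≤ 1) := by decide +kernel
      rcases Nat.lt_or_ge k 2 with h1 | h1
      · have hk1 : k = 1 := by omega
        subst hk1
        rw [Finset.card_le_one]
        intro a ha b hb
        simp only [Finset.mem_filter, Finset.mem_insert, Finset.mem_singleton, g_dist] at ha hb
        have := h v
        rcases ha with ⟨rfl | rfl, ha⟩ <;> rcases hb with ⟨rfl | rfl, hb⟩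
        · rfl
        · exact absurd ⟨ha, hb⟩ this
        · exact absurd ⟨hb, ha⟩ this
        · rfl
      · refine (Finset.card_filter_le _ _).trans ?_
        have : ({0, 7} : Finset (Fin 30)).card = 2 := by decide
        omega

/-! ### the fractional broadcast number -/

lemma frac_ge (x : Fin 30 → ℕ → ℝ) (hx : IsFeasible g x) :
    3 ≤ ∑ v, ∑ k ∈ Finset.Icc 1 (ecc g v), (k : ℝ) * x v k := by
  obtain ⟨h0, h1⟩ := hx
  have h2 : (30 : ℝ) ≤ ∑ u : Fin 30, ∑ v, ∑ k ∈ Finset.Icc 1 (ecc g v),
      if g.dist u v ≤ k then x v k else 0 := by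
    calc (30 : ℝ) = ∑ _u : Fin 30, (1 : ℝ) := by simp
      _ ≤ _ := Finset.sum_le_sum fun u _ => h1 u
  rw [Finset.sum_comm] at h2
  have h3 : ∀ v : Fin 30, ∑ u : Fin 30, ∑ k ∈ Finset.Icc 1 (ecc g v),
      (if g.dist u v ≤ k then x v k else 0) ≤
      ∑ k ∈ Finset.Icc 1 (ecc g v), 10 * ((k : ℝ) * x v k) := by
    intro v
    rw [Finset.sum_comm]
    apply Finset.sum_le_sum
    intro k hk
    rw [← Finset.sum_filter, Finset.sum_const, nsmul_eq_mul]
    have h4 : (univ.filter fun u => g.dist u v ≤ k) = univ.filter fun u => D u v ≤ k := by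
      apply Finset.filter_congr
      intro u _
      rw [g_dist]
    rw [h4]
    have h5 := ball_le v k (Finset.mem_Icc.1 hk).1
    have h6 : ((univ.filter fun u => D u v ≤ k).card : ℝ) ≤ 10 * k := by exact_mod_cast h5
    have := mul_le_mul_of_nonneg_right h6 (h0 v k)
    linarith
  have h7 := h2.trans (Finset.sum_le_sum fun v _ => h3 v)
  simp only [← Finset.mul_sum] at h7
  linarith

lemma frac_feasible : IsFeasible g (fun _ k => if k = 2 then 1 / 20 else 0) := by
  constructor
  · intro v k
    dsimp only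
    split_ifs <;> norm_num
  · intro u
    have h1 : ∀ v : Fin 30, ∑ k ∈ Finset.Icc 1 (ecc g v),
        (if g.dist u v ≤ k then (if k = 2 then (1 / 20 : ℝ) else 0) else 0) =
        if D u v ≤ 2 then 1 / 20 else 0 := by
      intro v
      rw [g_ecc, Finset.sum_eq_single 2]
      · rw [g_dist, if_pos rfl]
      · intro k _ hk
        rw [if_neg hk]
        simp
      · intro h
        exact absurd (Finset.mem_Icc.2 (by norm_num)) h
    simp only [h1]
    rw [← Finset.sum_filter, Finset.sum_const, nsmul_eq_mul, ball_card' u]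
    norm_num

lemma frac_eq : fracBroadcastNum g = 3 := by
  apply le_antisymm
  · apply csInf_le
    · refine ⟨3, ?_⟩
      rintro c ⟨x, hx, rfl⟩
      exact frac_ge x hx
    · refine ⟨_, frac_feasible, ?_⟩
      have h1 : ∀ v : Fin 30, ∑ k ∈ Finset.Icc 1 (ecc g v),
          (k : ℝ) * (if k = 2 then (1 / 20 : ℝ) else 0) = 1 / 10 := by
        intro v
        rw [g_ecc, Finset.sum_eq_single 2]
        · norm_num
        · intro k _ hk
          rw [if_neg hk, mul_zero]
        · intro h
          exact absurd (Finset.mem_Icc.2 (by norm_num)) h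
      simp only [h1]
      rw [Finset.sum_const, Finset.card_univ, Fintype.card_fin, nsmul_eq_mul]
      norm_num
  · apply le_csInf
    · exact ⟨_, _, frac_feasible, rfl⟩
    · rintro c ⟨x, hx, rfl⟩
      exact frac_ge x hx

/-! ### the broadcast domination number -/

lemma dom_ge (f : Fin 30 → ℕ) (hf : IsDomBroadcast g f) : 4 ≤ ∑ v, f v := by
  by_contra hcon
  push Not at hcon
  -- the sizes of the balls
  have hcov : (univ : Finset (Fin 30)) ⊆ univ.biUnion fun v =>
      if 1 ≤ f v then univ.filter fun u => D u v ≤ f v else ∅ := by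
    intro u _
    obtain ⟨v, h1, h2⟩ := hf.2 u
    rw [Finset.mem_biUnion]
    refine ⟨v, Finset.mem_univ v, ?_⟩
    rw [if_pos h1, Finset.mem_filter]
    rw [g_dist] at h2
    exact ⟨Finset.mem_univ u, h2⟩
  have h1 := (Finset.card_le_card hcov).trans Finset.card_biUnion_le
  rw [Finset.card_univ, Fintype.card_fin] at h1
  have hle : ∀ v, f v ≤ 3 := fun v =>
    (Finset.single_le_sum (f := f) (fun _ _ => Nat.zero_le _) (Finset.mem_univ v)).trans
      (by omega)
  have h2 : ∀ v, (if 1 ≤ f v then univ.filter fun u => D u v ≤ f v else ∅).card +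
      2 * (f v % 2) = 10 * f v := by
    intro v
    obtain ⟨c1, c2, c3⟩ := ball_card v
    have h3 := hle v
    have h4 : f v = 0 ∨ f v = 1 ∨ f v = 2 ∨ f v = 3 := by omega
    rcases h4 with h | h | h | h
    · simp [h]
    · simp [h, c1]
    · simp [h, c2]
    · simp [h, c3]
  have h3 : ∑ v, ((if 1 ≤ f v then univ.filter fun u => D u v ≤ f v else ∅).card +
      2 * (f v % 2)) = ∑ v, 10 * f v := Finset.sum_congr rfl fun v _ => h2 v
  rw [Finset.sum_add_distrib, ← Finset.mul_sum, ← Finset.mul_sum] at h3
  -- the parity of the sum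
  have h4 : (∑ v, f v) % 2 = (∑ v, f v % 2) % 2 := Finset.sum_nat_mod _ _ _
  omega

lemma dom_eq : broadcastNum g = 4 := by
  have hne : IsDomBroadcast g (Pi.single 0 4) := by
    constructor
    · intro v
      rw [g_ecc]
      by_cases h : v = 0
      · subst h; simp
      · rw [Pi.single_eq_of_ne h]; omega
    · intro u
      refine ⟨0, by simp, ?_⟩
      have h : ∀ u : Fin 30, D u 0 ≤ 4 := by decide +kernel
      rw [g_dist]
      simpa using h u
  apply le_antisymm
  · apply Nat.sInf_le
    refine ⟨_, hne, ?_⟩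
    rw [Finset.sum_pi_single']
    simp
  · apply le_csInf
    · exact ⟨_, _, hne, rfl⟩
    · rintro c ⟨f, hf, rfl⟩
      exact dom_ge f hf

/-- There is a finite connected graph with multipacking number 2, fractional broadcast number 3 and
broadcast domination number 4. -/
theorem result : ∃ (V : Type) (_ : Fintype V) (G : SimpleGraph V), G.Connected ∧
    multipackingNum G = 2 ∧ fracBroadcastNum G = 3 ∧ broadcastNum G = 4 :=
  ⟨Fin 30, inferInstance, g, g_connected, mp_eq, frac_eq, dom_eq⟩

end Pool.Agent.Results.MP_93535d_co.IntegralGap
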